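import Pool.Agent.Helper980.Prikry.Card

set_option autoImplicit false

namespace Pool.Agent.Helper980.Prikry
open Cardinal Ordinal Set
open Pool.Agent.Helper980.Polar

universe u v w

section
variable (P : Type u) [Preorder P]

/-- The relation `(|K|, |S|) → (|K|, |K|; |I|, |I|)` fails in the extension: there is a partition
of `K × S` into two classes `Δ₀` and `Δ₁` (the membership of `(x, y)` in `Δ₁` is named by `F x y`)
such that for all `A ⊆ K` and `B ⊆ S`, if `A` has at least `|K|` elements and `B` has at least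
`|I|` elements then `A × B` is not a subset of `Δ₀` and not a subset of `Δ₁`. -/
def NotPol (K S I : Type u) : Set P :=
  fex fun F : K → S → Set P =>
    fall fun A : K → Set P => fall fun B : S → Set P =>
      fimp (fand (AtLeast K fun x => meets (A x)) (AtLeast I fun y => meets (B y)))
        (fand
          (fnot (fall fun x => fall fun y =>
            fimp (fand (meets (A x)) (meets (B y))) (fnot (meets (F x y)))))
          (fnot (fall fun x => fall fun y =>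
            fimp (fand (meets (A x)) (meets (B y))) (meets (F x y)))))

/-- The square bracket relation `(|K|, |S|) → [|K|; |I|]` with `|C|` colours fails in the
extension: there is a function from `K × S` to `C` (the statement that its value at `(x, y)` is `c`
is named by `F x y c`) which takes all values in `C` on every product `A × B` such that `A ⊆ K` has
at least `|K|` elements and `B ⊆ S` has at least `|I|` elements. -/
def NotSquare (K S I C : Type u) : Set P :=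
  fex fun F : K → S → C → Set P =>
    fand (fall fun x => IsFun (F x))
      (fall fun A : K → Set P => fall fun B : S → Set P => fall fun c : C =>
        fimp (fand (AtLeast K fun x => meets (A x)) (AtLeast I fun y => meets (B y)))
          (fex fun x => fex fun y => fand (fand (meets (A x)) (meets (B y))) (meets (F x y c))))

/-- every set of pairwise incompatible conditions has at most `κ` elements -/
def ChainCondition (κ : Cardinal.{u}) : Prop :=
  ∀ Z : Set P, (∀ p ∈ Z, ∀ q ∈ Z, p ≠ q → ¬ ∃ r, r ≤ p ∧ r ≤ q) → #Z ≤ κ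

end

variable {mu : Cardinal.{u}} {S C : Type u} [Nonempty C]

theorem decide_fun' (h0 : ℵ₀ ≤ mu) (hC : #C ≤ mu) {A : Type u} (hA : #A ≤ mu)
    {Y : Type v} (R : A → Y → Set (Cond mu S C)) (p : Cond mu S C) (hp : p ∈ IsFun R) :
    ∃ q ≤ p, ∃ f : A → Y, ∀ a, q ∈ meets (R a (f a)) := by
  obtain ⟨q, hq, h1⟩ := meet h0 hC hA (fun a => {t | ∃ y, t ∈ meets (R a y)})
    (fun n t ⟨a, ha⟩ t' ht' => ⟨a, down_meets _ _ ha _ ht'⟩) p (by
      intro n t ht
      obtain ⟨t', ht', a, ha⟩ := mem_fex.1 (hp.1 n) t ht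
      exact ⟨t', ht', a, ha⟩)
  choose f hf using h1
  exact ⟨q, hq, f, hf⟩

theorem core (h0 : ℵ₀ ≤ mu) (hC : #C ≤ mu) {I K : Type u} (hI : #I = mu) (e : K ≃ Lam mu)
    (A : K → Set (Cond mu S C)) (B : S → Set (Cond mu S C)) (r : Cond mu S C)
    (hA : r ∈ AtLeast K fun x => meets (A x)) (hB : r ∈ AtLeast I fun y => meets (B y)) (c : C)
    (t : Cond mu S C) (ht : t ≤ r) :
    ∃ s ≤ t, ∃ ξ y, e ξ < s.top ∧ y ∈ s.a ∧ s.f (e ξ) y = c ∧ s ∈ meets (A ξ) ∧
      s ∈ meets (B y) := by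
  classical
  obtain ⟨t1, ht1, R, ⟨hR1, hR2⟩, hR3⟩ := mem_fex.1 hB t ht
  obtain ⟨t2, ht2, f, hf⟩ := decide_fun' h0 hC (A := I) hI.le R t1 hR1
  have hinj : Function.Injective f := by
    intro i i' hii
    obtain ⟨_, _, h3⟩ := mem_fimp.1 (hR2 i i' (f i)) t2 ht2 ⟨hf i, by rw [hii]; exact hf i'⟩
    exact h3
  have hcard : #(range f) = mu := by rw [mk_range_eq _ hinj, hI]
  obtain ⟨t3, ht3, _, _, hpr⟩ := extend h0 hC t2 t2.top (range f) hcard.le {range f}
    (by rw [mk_singleton]; exact one_le_aleph0.trans h0) (by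
      intro D hD
      rw [mem_singleton_iff] at hD
      subst hD
      exact ⟨Subset.rfl, hcard.ge⟩)
  have hpr' : range f ∈ t3.pr := hpr rfl
  obtain ⟨t4, ht4, G, ⟨hG1, hG2⟩, hG3⟩ := mem_fex.1 hA t3
    (ht3.trans (ht2.trans (ht1.trans ht)))
  have hX : ∃ s ≤ t4, ∃ a, t3.top ≤ e a ∧ s ∈ meets (A a) := by
    by_contra hc
    push Not at hc
    obtain ⟨s0, hs0, h1⟩ := meet h0 hC (ι := Iio t3.top) (mk_Iio_le t3.top)
      (fun y => {s | (∃ x, s ∈ meets (G x (e.symm y.1))) ∨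
        ∀ x, s ∈ fnot (meets (G x (e.symm y.1)))})
      (by
        rintro y s (⟨x, hx⟩ | hx) s' hs'
        · exact Or.inl ⟨x, down_meets _ _ hx _ hs'⟩
        · exact Or.inr fun x => down_fnot _ _ (hx x) _ hs') t4
      (by
        intro y s _
        by_cases h2 : ∃ s' ≤ s, ∃ x, s' ∈ meets (G x (e.symm y.1))
        · obtain ⟨s', hs', hx⟩ := h2
          exact ⟨s', hs', Or.inl hx⟩
        · push Not at h2
          exact ⟨s, le_rfl, Or.inr fun x s' hs' => h2 s' hs' x⟩)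
    have h2 : ∀ y : Iio t3.top, ∃ g : K, s0 ∈ meets (G g (e.symm y.1)) ∨
        ∀ x, s0 ∈ fnot (meets (G x (e.symm y.1))) := by
      intro y
      rcases h1 y with ⟨x, hx⟩ | hx
      · exact ⟨x, Or.inl hx⟩
      · exact ⟨e.symm y.1, Or.inr hx⟩
    choose g hg using h2
    have hx : ∃ x : K, ∀ y, x ≠ g y := by
      by_contra h3
      push Not at h3
      have h4 : (Set.univ : Set K) ⊆ range g := by
        intro x _
        obtain ⟨y, hy⟩ := h3 x
        exact ⟨y, hy.symm⟩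
      have h5 := (mk_le_mk_of_subset h4).trans (mk_range_le.trans (mk_Iio_le t3.top))
      rw [mk_univ, mk_congr e, mk_Lam] at h5
      exact absurd h5 (not_le.2 (Order.lt_succ mu))
    obtain ⟨x, hx⟩ := hx
    obtain ⟨s1, hs1, y, hy⟩ := mem_fex.1 (hG1.1 x) s0 hs0
    obtain ⟨s2, hs2, hy2⟩ := mem_fimp.1 (hG3 x y) s1 (hs1.trans hs0) hy
    have hyb : e y < t3.top := by
      by_contra h3
      exact hc s2 (hs2.trans (hs1.trans hs0)) y (not_lt.1 h3) hy2
    have h3 := hg ⟨e y, hyb⟩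
    simp only [Equiv.symm_apply_apply] at h3
    rcases h3 with h3 | h3
    · obtain ⟨_, _, h4⟩ := mem_fimp.1 (hG2 x (g ⟨e y, hyb⟩) y) s1 (hs1.trans hs0)
        ⟨hy, down_meets _ _ h3 _ hs1⟩
      have h5 : x = g ⟨e y, hyb⟩ := h4
      exact hx _ h5
    · exact h3 x s1 hs1 hy
  obtain ⟨s, hs, a, ha, hsa⟩ := hX
  obtain ⟨s', hs', ha', _, _⟩ := extend h0 hC s (e a) ∅ (by simp) ∅ (by simp) (by simp)
  have hs3 : s' ≤ t3 := hs'.trans (hs.trans ht4)
  obtain ⟨x, ⟨i, hi⟩, hxc⟩ := hs3.2.2.2.2 _ hpr' (e a) ha ha' c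
  subst hi
  have hxa : f i ∈ s'.a := hs3.2.1 ((t3.hB _ hpr').1 ⟨i, rfl⟩)
  obtain ⟨s1, hs1, h1⟩ := mem_fimp.1 (hR3 i (f i)) s' (hs3.trans (ht3.trans ht2))
    (down_meets _ _ (hf i) _ (hs3.trans ht3))
  refine ⟨s1, hs1.trans (hs3.trans (ht3.trans (ht2.trans ht1))), a, f i,
    ha'.trans_le hs1.1, hs1.2.1 hxa, ?_, down_meets _ _ hsa _ (hs1.trans hs'), h1⟩
  rw [hs1.2.2.2.1 (e a) ha' (f i) hxa, hxc]

/-- the generic function takes the value `c` at `(x, y)` -/
def gen {K : Type u} (e : K ≃ Lam mu) (x : K) (y : S) (c : C) : Set (Cond mu S C) :=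
  {p | e x < p.top ∧ y ∈ p.a ∧ p.f (e x) y = c}

theorem mem_meets_of_mem {P : Type u} [Preorder P] {N : Set P} {p : P} (h : p ∈ N) :
    p ∈ meets N := fun q hq => ⟨q, le_rfl, p, h, hq⟩

theorem gen_unique {K : Type u} {e : K ≃ Lam mu} {x : K} {y : S} {c c' : C} {p : Cond mu S C}
    (h : p ∈ meets (gen e x y c)) (h' : p ∈ meets (gen e x y c')) : c = c' := by
  obtain ⟨r, hr, s, hs, hrs⟩ := h p le_rfl
  obtain ⟨r', hr', s', hs', hrs'⟩ := h' r hr
  have h1 : r'.f (e x) y = c := by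
    rw [(hr'.trans hrs).2.2.2.1 (e x) hs.1 y hs.2.1]
    exact hs.2.2
  have h2 : r'.f (e x) y = c' := by
    rw [hrs'.2.2.2.1 (e x) hs'.1 y hs'.2.1]
    exact hs'.2.2
  rw [← h1, h2]

theorem notSquare (h0 : ℵ₀ ≤ mu) (hC : #C ≤ mu) {I K : Type u} (hI : #I = mu) (e : K ≃ Lam mu)
    (p : Cond mu S C) : p ∈ NotSquare (Cond mu S C) K S I C := by
  refine mem_fex.2 fun q _ => ⟨q, le_rfl, fun x y c => gen e x y c, ?_, ?_⟩
  · intro x
    refine ⟨fun y => mem_fex.2 fun r _ => ?_, fun y c c' => mem_fimp.2 fun r _ h => ?_⟩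
    · obtain ⟨s, hs, h1, h2, _⟩ := extend h0 hC r (e x) {y}
        (by rw [mk_singleton]; exact one_le_aleph0.trans h0) ∅ (by simp) (by simp)
      exact ⟨s, hs, s.f (e x) y, mem_meets_of_mem ⟨h1, h2 rfl, rfl⟩⟩
    · exact ⟨r, le_rfl, gen_unique h.1 h.2⟩
  · intro A B c
    refine mem_fimp.2 fun r _ hr => ⟨r, le_rfl, ?_⟩
    refine mem_fex.2 fun t ht => ?_
    obtain ⟨s, hs, ξ, y, h1, h2, h3, h4, h5⟩ := core h0 hC hI e A B r hr.1 hr.2 c t ht
    refine ⟨s, hs, ξ, mem_fex.2 fun s' hs' => ⟨s', le_rfl, y, ?_⟩⟩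
    exact ⟨⟨down_meets _ _ h4 _ hs', down_meets _ _ h5 _ hs'⟩,
      down_meets _ _ (mem_meets_of_mem (show s ∈ gen e ξ y c from ⟨h1, h2, h3⟩)) _ hs'⟩

theorem notPol (h0 : ℵ₀ ≤ mu) (hC : #C ≤ mu) {I K : Type u} (hI : #I = mu) (e : K ≃ Lam mu)
    (c0 c1 : C) (hc : c0 ≠ c1) (p : Cond mu S C) : p ∈ NotPol (Cond mu S C) K S I := by
  refine mem_fex.2 fun q _ => ⟨q, le_rfl, fun x y => gen e x y c1, ?_⟩
  intro A B
  refine mem_fimp.2 fun r _ hr => ⟨r, le_rfl, ?_, ?_⟩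
  · intro t ht h
    obtain ⟨s, hs, ξ, y, h1, h2, h3, h4, h5⟩ := core h0 hC hI e A B r hr.1 hr.2 c1 t ht
    obtain ⟨s', hs', h6⟩ := mem_fimp.1 (h ξ y) s hs ⟨h4, h5⟩
    exact h6 s' le_rfl (down_meets _ _ (mem_meets_of_mem
      (show s ∈ gen e ξ y c1 from ⟨h1, h2, h3⟩)) _ hs')
  · intro t ht h
    obtain ⟨s, hs, ξ, y, h1, h2, h3, h4, h5⟩ := core h0 hC hI e A B r hr.1 hr.2 c0 t ht
    obtain ⟨s', hs', h6⟩ := mem_fimp.1 (h ξ y) s hs ⟨h4, h5⟩
    exact hc (gen_unique (down_meets _ _ (mem_meets_of_mem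
      (show s ∈ gen e ξ y c0 from ⟨h1, h2, h3⟩)) _ hs') h6)

theorem noNew (h0 : ℵ₀ ≤ mu) (hC : #C ≤ mu) {I : Type u} (hI : #I ≤ mu) :
    NoNewFunctions (Cond mu S C) I :=
  fun _ R p hp => decide_fun' h0 hC hI R p hp

/-- **Main technical theorem.** -/
theorem exists_forcing {mu : Cardinal.{u}} (h0 : ℵ₀ ≤ mu) (h2 : 2 ^ mu = Order.succ mu)
    {K S I : Type u} (hK : #K = Order.succ mu) (hS : #S = Order.succ (Order.succ mu))
    (hI : #I = mu) : ∃ (P : Type u) (_ : Preorder P), Nonempty P ∧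
      #P ≤ Order.succ (Order.succ mu) ∧ NoNewFunctions P I ∧
      ChainCondition P (Order.succ mu) ∧ ∀ p : P, p ∈ NotPol P K S I ∧ p ∈ NotSquare P K S I I := by
  have hs0 : ℵ₀ ≤ Order.succ mu := h0.trans (Order.le_succ mu)
  have hSne : Nonempty S := by
    rw [← mk_ne_zero_iff, hS]
    exact (aleph0_pos.trans_le (hs0.trans (Order.le_succ _))).ne'
  have hI1 : 1 < #I := by
    rw [hI]
    exact one_lt_aleph0.trans_le h0
  obtain ⟨c0, c1, hc⟩ := one_lt_iff_nontrivial.1 hI1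
  have hIne : Nonempty I := ⟨c0⟩
  obtain ⟨e⟩ : Nonempty (K ≃ Lam mu) := by
    rw [← Cardinal.eq, hK, mk_Lam]
  exact ⟨Cond mu S I, inferInstance, nonempty_cond h0, mk_cond h0 hI.le h2 hS.le,
    noNew h0 hI.le hI.le, chain h0 hI.le h2, fun p =>
    ⟨notPol h0 hI.le hI e c0 c1 hc p, notSquare h0 hI.le hI e p⟩⟩

end Pool.Agent.Helper980.Prikry
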