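import Pool.Agent.Helper980.Prikry.GDefs
import Pool.Agent.Helper980.Prikry.Forced

set_option autoImplicit false

namespace Pool.Agent.Helper980.G

open Cardinal Pool.Agent.Helper669.Forcing Pool.Agent.Helper669.K

section general

variable {P : Type} [Preorder P]

theorem mem_for {φ ψ : Set P} {p : P} (h : p ∈ for' φ ψ) : ∃ q ≤ p, q ∈ φ ∨ q ∈ ψ := by
  by_contra hc
  push Not at hc
  exact h p le_rfl ⟨fun q hq h' => (hc q hq).1 h', fun q hq h' => (hc q hq).2 h'⟩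

theorem for_left {φ ψ : Set P} (hd : Down φ) {p : P} (h : p ∈ φ) : p ∈ for' φ ψ :=
  fun q hq h' => h'.1 q le_rfl (hd _ h _ hq)

theorem for_right {φ ψ : Set P} (hd : Down ψ) {p : P} (h : p ∈ ψ) : p ∈ for' φ ψ :=
  fun q hq h' => h'.2 q le_rfl (hd _ h _ hq)

/-- a maximal antichain inside a downwards closed set -/
theorem exists_antichain (D : Set P) : ∃ Z ⊆ D,
    (∀ p ∈ Z, ∀ q ∈ Z, p ≠ q → ¬ ∃ r, r ≤ p ∧ r ≤ q) ∧ ∀ p ∈ D, ∃ z ∈ Z, ∃ r, r ≤ p ∧ r ≤ z := by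
  obtain ⟨Z, hZ⟩ := zorn_subset {Z : Set P | Z ⊆ D ∧
    ∀ p ∈ Z, ∀ q ∈ Z, p ≠ q → ¬ ∃ r, r ≤ p ∧ r ≤ q} (by
      intro c hc hch
      refine ⟨⋃₀ c, ⟨?_, ?_⟩, fun s hs => Set.subset_sUnion_of_mem hs⟩
      · rintro x ⟨s, hs, hx⟩
        exact (hc hs).1 hx
      · rintro p ⟨s, hs, hp⟩ q ⟨t, ht, hq⟩ hpq
        rcases hch.total hs ht with h | h
        · exact (hc ht).2 p (h hp) q hq hpq
        · exact (hc hs).2 p hp q (h hq) hpq)
  refine ⟨Z, hZ.prop.1, hZ.prop.2, fun p hp => ?_⟩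
  by_contra hcon
  push Not at hcon
  have h1 : insert p Z ∈ {Z : Set P | Z ⊆ D ∧
      ∀ p ∈ Z, ∀ q ∈ Z, p ≠ q → ¬ ∃ r, r ≤ p ∧ r ≤ q} := by
    refine ⟨?_, ?_⟩
    · rintro x (rfl | hx)
      · exact hp
      · exact hZ.prop.1 hx
    · rintro x (rfl | hx) y (rfl | hy) hxy ⟨r, hr, hr'⟩
      · exact hxy rfl
      · exact hcon y hy r hr hr'
      · exact hcon x hx r hr' hr
      · exact hZ.prop.2 x hx y hy hxy ⟨r, hr, hr'⟩
  have h2 := hZ.le_of_ge h1 (Set.subset_insert p Z)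
  have h3 : p ∈ Z := h2 (Set.mem_insert p Z)
  exact hcon p h3 p le_rfl le_rfl

theorem meets_congr {D Z : Set P} (h1 : ∀ z ∈ Z, ∃ s ∈ D, z ≤ s)
    (h2 : ∀ s ∈ D, ∀ p ≤ s, ∃ z ∈ Z, ∃ r, r ≤ p ∧ r ≤ z) : meets D = meets Z := by
  ext p
  constructor
  · intro h q hq
    obtain ⟨r, hr, s, hs, hrs⟩ := h q hq
    obtain ⟨z, hz, t, ht, htz⟩ := h2 s hs r hrs
    exact ⟨t, ht.trans hr, z, hz, htz⟩
  · intro h q hq
    obtain ⟨r, hr, z, hz, hrz⟩ := h q hq
    obtain ⟨s, hs, hzs⟩ := h1 z hz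
    exact ⟨r, hr, s, hs, hrz.trans hzs⟩

/-- ground model injections give injections -/
theorem sizeLe_of_le {X Y : Type} (h : #Y ≤ #X) (p : P) : p ∈ SizeLe P Y X := by
  obtain ⟨f⟩ := h
  refine mem_fex.2 fun q _ => ⟨q, le_rfl, fun y x => fground (f y = x), ?_, ?_⟩
  · refine ⟨fun y => mem_fex.2 fun r _ => ⟨r, le_rfl, f y, meets_of_mem rfl⟩,
      fun y x x' => mem_fimp.2 fun r _ hr => ⟨r, le_rfl, ?_⟩⟩
    obtain ⟨_, _, _, h1, _⟩ := hr.1 r le_rfl
    obtain ⟨_, _, _, h2, _⟩ := hr.2 r le_rfl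
    have h1' : f y = x := h1
    have h2' : f y = x' := h2
    exact h1'.symm.trans h2'
  · refine fun y y' x => mem_fimp.2 fun r _ hr => ⟨r, le_rfl, ?_⟩
    obtain ⟨_, _, _, h1, _⟩ := hr.1 r le_rfl
    obtain ⟨_, _, _, h2, _⟩ := hr.2 r le_rfl
    have h1' : f y = x := h1
    have h2' : f y' = x := h2
    exact f.injective (h1'.trans h2'.symm)

theorem fiff_self {φ : Set P} (p : P) :
    p ∈ fand (fimp φ φ) (fimp φ φ) :=
  ⟨mem_fimp.2 fun r _ h => ⟨r, le_rfl, h⟩, mem_fimp.2 fun r _ h => ⟨r, le_rfl, h⟩⟩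

/-- GCH for sets of size at least `κ`, from the `κ⁺`-chain condition -/
theorem powerLe_big {κ : Cardinal.{0}} (hκ : ℵ₀ ≤ κ)
    (hcc : ∀ Z : Set P, (∀ p ∈ Z, ∀ q ∈ Z, p ≠ q → ¬ ∃ r, r ≤ p ∧ r ≤ q) → #Z ≤ κ)
    (hP : #P ≤ 2 ^ κ) {X Y : Type} (hX : κ ≤ #X) (hY : 2 ^ #X ≤ #Y) (p : P) :
    p ∈ PowerLe P X Y := by
  classical
  let m : Type := κ.ord.ToType
  have hm : #m = κ := by simp [m]
  have hX0 : ℵ₀ ≤ #X := hκ.trans hX
  have hN : #(X → m → Option P) ≤ #Y := by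
    have h1 : #(X → m → Option P) = (#(Option P) ^ #m) ^ #X := by simp
    rw [h1, hm, ← power_mul, mul_eq_right hX0 hX (aleph0_pos.trans_le hκ).ne']
    have h2 : #(Option P) ≤ 2 ^ κ := by
      rw [mk_option]
      exact add_le_of_le (hκ.trans (cantor κ).le) hP (one_le_aleph0.trans (hκ.trans (cantor κ).le))
    refine (power_le_power_right h2).trans ?_
    rw [← power_mul, mul_eq_right hX0 hX (aleph0_pos.trans_le hκ).ne']
    exact hY
  have hsurj : ∃ g : Y → X → m → Option P, Function.Surjective g := by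
    obtain ⟨j⟩ := hN
    have : Nonempty (X → m → Option P) := ⟨fun _ _ => none⟩
    exact ⟨Function.invFun j, Function.invFun_surjective j.injective⟩
  obtain ⟨g, hg⟩ := hsurj
  refine mem_fex.2 fun q _ => ⟨q, le_rfl, fun y x => {r | ∃ k, g y x k = some r}, ?_⟩
  intro A
  have h1 : ∀ x, ∃ f : m → Option P, meets (A x) = meets {r | ∃ k, f k = some r} := by
    intro x
    obtain ⟨Z, hZ1, hZ2, hZ3⟩ := exists_antichain {r | ∃ s ∈ A x, r ≤ s}
    obtain ⟨j⟩ : #Z ≤ #m := (hcc Z hZ2).trans hm.ge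
    refine ⟨fun k => if h : ∃ z, j z = k then some h.choose.1 else none, ?_⟩
    have h2 : {r | ∃ k, (if h : ∃ z, j z = k then some h.choose.1 else none) = some r} = Z := by
      ext r
      constructor
      · rintro ⟨k, hk⟩
        split_ifs at hk with h
        simp only [Option.some.injEq] at hk
        rw [← hk]
        exact h.choose.2
      · intro hr
        refine ⟨j ⟨r, hr⟩, ?_⟩
        have h : ∃ z, j z = j ⟨r, hr⟩ := ⟨_, rfl⟩
        rw [dif_pos h]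
        have h3 : h.choose = ⟨r, hr⟩ := j.injective h.choose_spec
        rw [h3]
    rw [h2]
    exact meets_congr (fun z hz => hZ1 hz) (fun s hs r hr => by
      obtain ⟨z, hz, t, ht, htz⟩ := hZ3 r ⟨s, hs, hr⟩
      exact ⟨z, hz, t, ht, htz⟩)
  choose f hf using h1
  obtain ⟨y, hy⟩ := hg f
  refine mem_fex.2 fun r _ => ⟨r, le_rfl, y, fun x => ?_⟩
  show r ∈ fand (fimp (meets (A x)) (meets {r | ∃ k, g y x k = some r}))
    (fimp (meets {r | ∃ k, g y x k = some r}) (meets (A x)))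
  rw [hy, ← hf x]
  exact fiff_self r

/-- GCH for small sets, if no new functions are added -/
theorem powerLe_small {X Y : Type} (hY : 2 ^ #X ≤ #Y)
    (hdec : ∀ (A : X → Set P) (p : P), ∃ q ≤ p, ∀ x, q ∈ meets (A x) ∨ q ∈ fnot (meets (A x)))
    (p : P) : p ∈ PowerLe P X Y := by
  classical
  have hsurj : ∃ g : Y → Set X, Function.Surjective g := by
    have h1 : #(Set X) ≤ #Y := by rwa [mk_set]
    obtain ⟨j⟩ := h1
    exact ⟨Function.invFun j, Function.invFun_surjective j.injective⟩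
  obtain ⟨g, hg⟩ := hsurj
  refine mem_fex.2 fun q _ => ⟨q, le_rfl, fun y x => fground (x ∈ g y), ?_⟩
  intro A
  refine mem_fex.2 fun r _ => ?_
  obtain ⟨s, hs, h1⟩ := hdec A r
  obtain ⟨y, hy⟩ := hg {x | s ∈ meets (A x)}
  refine ⟨s, hs, y, fun x => ⟨mem_fimp.2 fun t ht h2 => ⟨t, le_rfl, ?_⟩,
    mem_fimp.2 fun t ht h2 => ⟨t, le_rfl, ?_⟩⟩⟩
  · rcases h1 x with h3 | h3
    · refine meets_of_mem ?_
      show x ∈ g y
      rw [hy]
      exact h3
    · exact absurd h2 (h3 t ht)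
  · obtain ⟨_, _, _, h3, _⟩ := h2 t le_rfl
    have h4 : x ∈ g y := h3
    rw [hy] at h4
    exact down_meets _ _ h4 _ ht

/-- preservation of cardinals -/
theorem cardinals_preserved {θ κ : Cardinal.{0}} (hκ0 : ℵ₀ ≤ κ) (hκ : ∀ ν, θ < ν → κ ≤ ν)
    (hcc : ∀ Z : Set P, (∀ p ∈ Z, ∀ q ∈ Z, p ≠ q → ¬ ∃ r, r ≤ p ∧ r ≤ q) → #Z ≤ κ)
    (hdec : ∀ (A Y : Type) (_ : #A ≤ θ) (R : A → Y → Set P) (p : P), p ∈ IsFun R →
      ∃ q ≤ p, ∃ f : A → Y, ∀ a, q ∈ meets (R a (f a))) (p : P) :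
    p ∈ CardinalsPreserved.{0, 0} P := by
  classical
  intro α β hαβ hβ q _ h
  obtain ⟨q, _, R, hR1, hR2⟩ := mem_fex.1 h q le_rfl
  rcases le_or_gt α θ with hα | hα
  · obtain ⟨r, hr, f, hf⟩ := hdec α.out β.out (by rwa [mk_out]) R q hR1
    have hsurj : Function.Surjective f := by
      intro b
      obtain ⟨s, hs, a, ha⟩ := mem_fex.1 (hR2 b) r hr
      exact ⟨a, IsFun.unique (down_IsFun _ _ (down_IsFun _ _ hR1 _ hr) _ hs)
        (down_meets _ _ (hf a) _ hs) ha⟩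
    have h1 := mk_le_of_surjective hsurj
    rw [mk_out, mk_out] at h1
    exact absurd h1 (not_le.2 hαβ)
  · have hκα : κ ≤ α := hκ α hα
    have hV : ∀ a : α.out, #{b : β.out | ∃ s ≤ q, s ∈ meets (R a b)} ≤ κ := by
      intro a
      have h1 : ∀ b : {b : β.out | ∃ s ≤ q, s ∈ meets (R a b)}, ∃ s ≤ q, s ∈ meets (R a b.1) :=
        fun b => b.2
      choose s hs hs' using h1
      have hinc : ∀ b b', b ≠ b' → ¬ ∃ r, r ≤ s b ∧ r ≤ s b' := by
        rintro b b' hbb ⟨r, hr, hr'⟩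
        refine hbb (Subtype.ext ?_)
        exact IsFun.unique (down_IsFun _ _ hR1 _ (hr.trans (hs b)))
          (down_meets _ _ (hs' b) _ hr) (down_meets _ _ (hs' b') _ hr')
      have hinj : Function.Injective s := by
        intro b b' hbb
        by_contra hne
        exact hinc b b' hne ⟨s b, le_rfl, hbb.le⟩
      have h2 := hcc (Set.range s) (by
        rintro _ ⟨b, rfl⟩ _ ⟨b', rfl⟩ hne
        exact hinc b b' (fun h => hne (by rw [h])))
      rwa [mk_range_eq s hinj] at h2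
    have h3 : (Set.univ : Set β.out) ⊆ ⋃ a : α.out, {b : β.out | ∃ s ≤ q, s ∈ meets (R a b)} := by
      intro b _
      obtain ⟨s, hs, a, ha⟩ := mem_fex.1 (hR2 b) q le_rfl
      exact Set.mem_iUnion.2 ⟨a, s, hs, ha⟩
    have h4 := mk_le_mk_of_subset h3
    rw [mk_univ, mk_out] at h4
    have h5 : β ≤ α := by
      refine h4.trans ((mk_iUnion_le_sum_mk.trans (sum_le_mk_mul_iSup _)).trans ?_)
      exact mul_le_of_le (hκ0.trans hκα) (mk_out α).le ((ciSup_le' hV).trans hκα)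
    exact absurd h5 (not_le.2 hαβ)

end general

end Pool.Agent.Helper980.G
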