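import Pool.Agent.Helper980.Prikry.Chain

set_option autoImplicit false

namespace Pool.Agent.Helper980.Prikry
open Cardinal Ordinal Set
open Pool.Agent.Helper980.Polar

universe u v w

variable {mu : Cardinal.{u}} {S C : Type u} [Nonempty C]

theorem power_succ_succ (h0 : ℵ₀ ≤ mu) (h2 : 2 ^ mu = Order.succ mu) :
    (Order.succ (Order.succ mu)) ^ mu ≤ Order.succ (Order.succ mu) := by
  classical
  obtain ⟨hp1, hp2⟩ := power_facts h0 h2
  have hs0 : ℵ₀ ≤ Order.succ mu := h0.trans (Order.le_succ mu)
  have hss0 : ℵ₀ ≤ Order.succ (Order.succ mu) := hs0.trans (Order.le_succ _)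
  let m : Type u := mu.ord.ToType
  have hm : #m = mu := by simp [m]
  have h1 : ∀ f : m → Lam (Order.succ mu), ∃ b : Lam (Order.succ mu), ∀ i, f i < b := fun f =>
    exists_bound hs0 (hm.le.trans (Order.le_succ mu)) f
  choose b hb using h1
  have h3 : #(m → Lam (Order.succ mu)) ≤ #(Σ c : Lam (Order.succ mu), (m → Iio c)) := by
    refine ⟨⟨fun f => ⟨b f, fun i => ⟨f i, hb f i⟩⟩, ?_⟩⟩
    intro f g h
    have key : ∀ x y : (Σ c : Lam (Order.succ mu), (m → Iio c)), x = y →
        (fun i => (x.2 i).1) = fun i => (y.2 i).1 := by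
      rintro x y rfl
      rfl
    exact key _ _ h
  have h4 : #(m → Lam (Order.succ mu)) = Order.succ (Order.succ mu) ^ mu := by
    have h5 : #(m → Lam (Order.succ mu)) = #(Lam (Order.succ mu)) ^ #m := by simp
    rw [h5, hm, mk_Lam]
  rw [← h4]
  refine h3.trans ?_
  rw [mk_sigma]
  refine (sum_le_mk_mul_iSup _).trans ?_
  refine mul_le_of_le hss0 (mk_Lam).le (ciSup_le' ?_)
  intro c
  have h5 : #(m → Iio c) = #(Iio c) ^ #m := by simp
  rw [h5, hm]
  exact (power_le_power_right (mk_Iio_le c)).trans (hp1.le.trans (Order.le_succ _))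

/-- the number of conditions -/
theorem mk_cond [Nonempty S] (h0 : ℵ₀ ≤ mu) (hC : #C ≤ mu) (h2 : 2 ^ mu = Order.succ mu)
    (hS : #S ≤ Order.succ (Order.succ mu)) : #(Cond mu S C) ≤ Order.succ (Order.succ mu) := by
  classical
  obtain ⟨hp1, hp2⟩ := power_facts h0 h2
  have hs0 : ℵ₀ ≤ Order.succ mu := h0.trans (Order.le_succ mu)
  have hss0 : ℵ₀ ≤ Order.succ (Order.succ mu) := hs0.trans (Order.le_succ _)
  let m : Type u := mu.ord.ToType
  have hm : #m = mu := by simp [m]
  have hmne : Nonempty m := by
    rw [← mk_ne_zero_iff, hm]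
    exact (aleph0_pos.trans_le h0).ne'
  have hd : ∀ t : Lam mu, ∃ d : m → Lam mu, Iio t ⊆ range d := by
    intro t
    have : Nonempty (Lam mu) := ⟨t⟩
    exact exists_cover (Iio t) ((mk_Iio_le t).trans hm.ge)
  choose d hd using hd
  have hen : ∀ q : Cond mu S C, ∃ e : m → S, q.a ⊆ range e := fun q =>
    exists_cover q.a (q.ha.trans hm.ge)
  choose en hen using hen
  have hep : ∀ q : Cond mu S C, ∃ e : m → Set S, q.pr ⊆ range e := fun q =>
    exists_cover q.pr (q.hpr.trans hm.ge)
  choose ep hep using hep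
  let code : Cond mu S C → Lam mu × (m → S) × Set m × (m → m → C) × (m → Set m) × Set m := fun q =>
    (q.top, en q, {i | en q i ∈ q.a}, fun i k => q.f (d q.top k) (en q i),
      fun k => {i | en q i ∈ ep q k}, {k | ep q k ∈ q.pr})
  have hinj : Function.Injective code := by
    intro p q h
    simp only [code, Prod.mk.injEq] at h
    obtain ⟨h1, h3, h4, h5, h6, h7⟩ := h
    have ha : p.a = q.a := by
      ext x
      constructor
      · intro hx
        obtain ⟨i, rfl⟩ := hen p hx
        have h8 : i ∈ {i | en p i ∈ p.a} := hx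
        rw [h4] at h8
        rw [h3]
        exact h8
      · intro hx
        obtain ⟨i, rfl⟩ := hen q hx
        have h8 : i ∈ {i | en q i ∈ q.a} := hx
        rw [← h4] at h8
        rw [← h3]
        exact h8
    have hf : p.f = q.f := by
      funext ξ x
      by_cases h8 : ξ < p.top ∧ x ∈ p.a
      · obtain ⟨i, hi⟩ := hen p h8.2
        obtain ⟨k, hk⟩ := hd p.top h8.1
        have h9 := congrFun (congrFun h5 i) k
        rw [← h1, ← h3, hi, hk] at h9
        exact h9
      · rw [p.nrm ξ x h8, q.nrm ξ x (by rw [← h1, ← ha]; exact h8)]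
    have hsub : ∀ p q : Cond mu S C, en p = en q → (fun k => {i | en p i ∈ ep p k}) =
        (fun k => {i | en q i ∈ ep q k}) → {k | ep p k ∈ p.pr} = {k | ep q k ∈ q.pr} →
        p.pr ⊆ q.pr := by
      intro p q h3 h6 h7 B hB
      obtain ⟨k, hk⟩ := hep p hB
      have h8 : k ∈ {k | ep p k ∈ p.pr} := by
        show ep p k ∈ p.pr
        rw [hk]
        exact hB
      rw [h7] at h8
      have h9 : ep q k ∈ q.pr := h8
      have h10 : B = ep q k := by
        ext x
        constructor
        · intro hx
          obtain ⟨i, hi⟩ := hen p ((p.hB B hB).1 hx)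
          have h11 : i ∈ {i | en p i ∈ ep p k} := by
            show en p i ∈ ep p k
            rw [hi, hk]
            exact hx
          have h12 : {i | en p i ∈ ep p k} = {i | en q i ∈ ep q k} := congrFun h6 k
          rw [h12] at h11
          have h13 : en q i ∈ ep q k := h11
          rwa [← h3, hi] at h13
        · intro hx
          obtain ⟨i, hi⟩ := hen q ((q.hB _ h9).1 hx)
          have h11 : i ∈ {i | en q i ∈ ep q k} := by
            show en q i ∈ ep q k
            rw [hi]
            exact hx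
          have h12 : {i | en p i ∈ ep p k} = {i | en q i ∈ ep q k} := congrFun h6 k
          rw [← h12] at h11
          have h13 : en p i ∈ ep p k := h11
          rwa [h3, hi, hk] at h13
      rw [h10]
      exact h9
    have hpr : p.pr = q.pr := subset_antisymm (hsub p q h3 h6 h7) (hsub q p h3.symm h6.symm h7.symm)
    cases p
    cases q
    simp only at h1 ha hf hpr
    subst h1
    subst ha
    subst hf
    subst hpr
    rfl
  refine (mk_le_of_injective hinj).trans ?_
  have e1 : #(m → S) ≤ Order.succ (Order.succ mu) := by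
    have h5 : #(m → S) = #S ^ #m := by simp
    rw [h5, hm]
    exact (power_le_power_right hS).trans (power_succ_succ h0 h2)
  have e2 : #(Set m) ≤ Order.succ (Order.succ mu) := by
    rw [mk_set, hm, h2]
    exact Order.le_succ _
  have e3 : #(m → m → C) ≤ Order.succ (Order.succ mu) := by
    have h5 : #(m → m → C) = (#C ^ #m) ^ #m := by simp
    rw [h5, hm, ← power_mul, mul_eq_self h0]
    exact ((power_le_power_right hC).trans hp2.le).trans (Order.le_succ _)
  have e4 : #(m → Set m) ≤ Order.succ (Order.succ mu) := by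
    have h5 : #(m → Set m) = (2 ^ #m) ^ #m := by simp
    rw [h5, hm, ← power_mul, mul_eq_self h0, h2]
    exact Order.le_succ _
  have e5 : #(Lam mu) ≤ Order.succ (Order.succ mu) := by
    rw [mk_Lam]
    exact Order.le_succ _
  have e6 : #(Lam mu × (m → S) × Set m × (m → m → C) × (m → Set m) × Set m) =
      #(Lam mu) * (#(m → S) * (#(Set m) * (#(m → m → C) * (#(m → Set m) * #(Set m))))) := by
    simp only [mk_prod, Cardinal.lift_id]
  rw [e6]
  exact mul_le_of_le hss0 e5 (mul_le_of_le hss0 e1 (mul_le_of_le hss0 e2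
    (mul_le_of_le hss0 e3 (mul_le_of_le hss0 e4 e2))))

end Pool.Agent.Helper980.Prikry
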