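import Pool.Agent.Helper980.Prikry.Main

set_option autoImplicit false

namespace Pool.Agent.Helper980.Prikry
open Cardinal Ordinal Set
open Pool.Agent.Helper980.Polar

universe u v w

variable {mu : Cardinal.{u}} {S C : Type u} [Nonempty C]

/-- conditions of the same length which agree on common columns are compatible -/
theorem amalgam (h0 : ℵ₀ ≤ mu) (p q : Cond mu S C) (ht : p.top = q.top)
    (h : ∀ ξ < p.top, ∀ x ∈ p.a, x ∈ q.a → p.f ξ x = q.f ξ x) : ∃ r, r ≤ p ∧ r ≤ q := by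
  classical
  let r : Cond mu S C := Cond.of p.top (p.a ∪ q.a) (fun ξ x => if x ∈ p.a then p.f ξ x else q.f ξ x)
    (p.pr ∪ q.pr) ((mk_union_le _ _).trans (add_le_of_le h0 p.ha q.ha))
    ((mk_union_le _ _).trans (add_le_of_le h0 p.hpr q.hpr)) (by
      rintro B (hB | hB)
      · exact ⟨(p.hB B hB).1.trans subset_union_left, (p.hB B hB).2⟩
      · exact ⟨(q.hB B hB).1.trans subset_union_right, (q.hB B hB).2⟩)
  refine ⟨r, ⟨le_rfl, subset_union_left, subset_union_left, ?_, ?_⟩,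
    ⟨ht.ge, subset_union_right, subset_union_right, ?_, ?_⟩⟩
  · intro ξ hξ x hx
    exact (of_f hξ (Or.inl hx)).trans (if_pos hx)
  · intro B _ ξ h1 h2
    exact absurd h2 (not_lt.2 h1)
  · intro ξ hξ x hx
    rw [show r.f ξ x = (if x ∈ p.a then p.f ξ x else q.f ξ x) from
      of_f (hξ.trans_le ht.ge) (Or.inr hx)]
    split_ifs with h1
    · exact h ξ (hξ.trans_le ht.ge) x h1 hx
    · rfl
  · intro B _ ξ h1 h2
    rw [← ht] at h1
    exact absurd h2 (not_lt.2 h1)

theorem exists_cover {X m : Type u} [Nonempty X] (s : Set X) (h : #s ≤ #m) :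
    ∃ e : m → X, s ⊆ range e := by
  classical
  obtain ⟨j⟩ := h
  refine ⟨Function.extend j (fun x => x.1) (fun _ => Classical.arbitrary X), fun x hx => ?_⟩
  exact ⟨j ⟨x, hx⟩, j.injective.extend_apply _ _ _⟩

theorem power_facts (h0 : ℵ₀ ≤ mu) (h2 : 2 ^ mu = Order.succ mu) :
    (Order.succ mu) ^ mu = Order.succ mu ∧ mu ^ mu = Order.succ mu := by
  have h3 : (Order.succ mu) ^ mu = Order.succ mu := by
    rw [← h2, ← power_mul, mul_eq_self h0]
  refine ⟨h3, le_antisymm ?_ ?_⟩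
  · calc mu ^ mu ≤ (Order.succ mu) ^ mu := power_le_power_right (Order.le_succ mu)
      _ = _ := h3
  · rw [← h2]
    exact power_le_power_right ((natCast_lt_aleph0 (n := 2)).le.trans h0)

/-- the chain condition -/
theorem chain [Nonempty S] (h0 : ℵ₀ ≤ mu) (hC : #C ≤ mu) (h2 : 2 ^ mu = Order.succ mu)
    (Z : Set (Cond mu S C)) (hZ : ∀ p ∈ Z, ∀ q ∈ Z, p ≠ q → ¬ ∃ r, r ≤ p ∧ r ≤ q) :
    #Z ≤ Order.succ mu := by
  classical
  by_contra hbig
  rw [not_le] at hbig
  have hZne : Nonempty Z := by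
    rw [← mk_ne_zero_iff]
    exact (bot_lt_of_lt hbig).ne'
  obtain ⟨p0⟩ := hZne
  let m : Type u := mu.ord.ToType
  have hm : #m = mu := by simp [m]
  have hmne : Nonempty m := by
    rw [← mk_ne_zero_iff, hm]
    exact (aleph0_pos.trans_le h0).ne'
  have hd : ∀ t : Lam mu, ∃ d : m → Lam mu, Iio t ⊆ range d := by
    intro t
    have : Nonempty (Lam mu) := ⟨t⟩
    exact exists_cover (Iio t) ((mk_Iio_le t).trans hm.ge)
  choose d hd using hd
  have hen : ∀ q : Cond mu S C, ∃ e : m → S, q.a ⊆ range e := fun q =>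
    exists_cover q.a (q.ha.trans hm.ge)
  choose en hen using hen
  let L : Type u := Lam mu × (m → m) × (m → m → C)
  let β : Option L → Type u := fun l => match l with
    | none => PEmpty
    | some _ => m
  let ev : WType β → Z := WType.elim Z (fun x => match x with
    | ⟨none, _⟩ => p0
    | ⟨some l, ch⟩ => if h : ∃ q : Z, q.1.top = l.1 ∧ ∀ i k, q.1.f (d l.1 k)
        (en (ch i).1 (l.2.1 i)) = l.2.2 i k then h.choose else p0)
  have hev : ∀ (l : L) (ch : m → WType β), (∃ q : Z, q.1.top = l.1 ∧ ∀ i k, q.1.f (d l.1 k)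
        (en (ev (ch i)).1 (l.2.1 i)) = l.2.2 i k) →
        (ev (WType.mk (some l) ch)).1.top = l.1 ∧ ∀ i k, (ev (WType.mk (some l) ch)).1.f (d l.1 k)
        (en (ev (ch i)).1 (l.2.1 i)) = l.2.2 i k := by
    intro l ch h
    have h1 : ev (WType.mk (some l) ch) = h.choose := dif_pos h
    rw [h1]
    exact h.choose_spec
  obtain ⟨hp1, hp2⟩ := power_facts h0 h2
  have hs0 : ℵ₀ ≤ Order.succ mu := h0.trans (Order.le_succ mu)
  have hL : #L ≤ Order.succ mu := by
    have h3 : #(m → m) ≤ Order.succ mu := by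
      have h5 : #(m → m) = #m ^ #m := by simp
      rw [h5, hm]
      exact hp2.le
    have h4 : #(m → m → C) ≤ Order.succ mu := by
      have h5 : #(m → m → C) = (#C ^ #m) ^ #m := by simp
      rw [h5, hm, ← power_mul, mul_eq_self h0]
      exact (power_le_power_right hC).trans hp2.le
    show #(Lam mu × (m → m) × (m → m → C)) ≤ Order.succ mu
    have h5 : #(Lam mu × (m → m) × (m → m → C)) = #(Lam mu) * (#(m → m) * #(m → m → C)) := by
      simp only [mk_prod, Cardinal.lift_id]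
    rw [h5]
    exact mul_le_of_le hs0 (mk_Lam).le (mul_le_of_le hs0 h3 h4)
  have hW : #(WType β) ≤ Order.succ mu := by
    refine WType.cardinalMk_le_of_le ?_
    refine (sum_le_mk_mul_iSup _).trans ?_
    refine mul_le_of_le hs0 ?_ (ciSup_le' ?_)
    · rw [mk_option]
      exact add_le_of_le hs0 hL (one_le_aleph0.trans hs0)
    · rintro (_ | l)
      · show Order.succ mu ^ #(PEmpty.{u+1}) ≤ _
        simp only [mk_pempty, power_zero]
        exact one_le_aleph0.trans hs0
      · show Order.succ mu ^ #m ≤ _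
        rw [hm, hp1]
  have hN : #(range ev) ≤ Order.succ mu := mk_range_le.trans hW
  have hex : ∃ p : Z, p ∉ range ev := by
    by_contra hc
    push Not at hc
    have h3 : range ev = Set.univ := eq_univ_of_forall hc
    rw [h3, mk_univ] at hN
    exact absurd hN (not_le.2 hbig)
  obtain ⟨p, hp⟩ := hex
  let r : Set S := {x | x ∈ p.1.a ∧ ∃ w, x ∈ (ev w).1.a}
  have hr : #r ≤ #m := (mk_le_mk_of_subset (fun x hx => hx.1)).trans (p.1.ha.trans hm.ge)
  have hkey : ∃ (ch : m → WType β) (σ : m → m), ∀ x ∈ r, ∃ i, en (ev (ch i)).1 (σ i) = x := by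
    obtain ⟨j⟩ := hr
    have h3 : ∀ x : r, ∃ (w : WType β) (k : m), en (ev w).1 k = x.1 := by
      rintro ⟨x, hx, w, hw⟩
      obtain ⟨k, hk⟩ := hen (ev w).1 hw
      exact ⟨w, k, hk⟩
    choose w k hk using h3
    have w0 : WType β := WType.mk none (fun x => PEmpty.elim x)
    refine ⟨Function.extend j w (fun _ => w0),
      Function.extend j k (fun _ => Classical.arbitrary m), fun x hx => ⟨j ⟨x, hx⟩, ?_⟩⟩
    rw [j.injective.extend_apply, j.injective.extend_apply]
    exact hk ⟨x, hx⟩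
  obtain ⟨ch, σ, hkey⟩ := hkey
  let l : L := (p.1.top, σ, fun i k => p.1.f (d p.1.top k) (en (ev (ch i)).1 (σ i)))
  obtain ⟨h3, h4⟩ := hev l ch ⟨p, rfl, fun _ _ => rfl⟩
  have hne : p ≠ ev (WType.mk (some l) ch) := fun h => hp ⟨_, h.symm⟩
  refine hZ p.1 p.2 _ (ev (WType.mk (some l) ch)).2 (fun h => hne (Subtype.ext h))
    (amalgam h0 _ _ h3.symm ?_)
  intro ξ hξ x hx hx'
  obtain ⟨i, hi⟩ := hkey x ⟨hx, _, hx'⟩
  obtain ⟨k, hk⟩ := hd p.1.top hξ
  have h5 := h4 i k
  have h6 : (ev (WType.mk (some l) ch)).1.f (d p.1.top k) (en (ev (ch i)).1 (σ i)) =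
    p.1.f (d p.1.top k) (en (ev (ch i)).1 (σ i)) := h5
  rw [hi, hk] at h6
  exact h6.symm

end Pool.Agent.Helper980.Prikry
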