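import Pool.Agent.Helper669.KDefs

/-!
# The generalized continuum hypothesis and a polarized relation in the language of forcing
-/

set_option autoImplicit false

namespace Pool.Agent.Helper980.G

open Cardinal Pool.Agent.Helper669.Forcing Pool.Agent.Helper669.K

section

variable (P : Type) [Preorder P]

/-- In the extension there is an injective function from `Y` to `X`. -/
def SizeLe (Y X : Type) : Set P :=
  fex fun R : Y → X → Set P => fand (IsFun R) (IsInj R)

/-- In the extension the power set of `X` has at most as many elements as `Y`: there is a family
of subsets of `X`, indexed by `Y`, in which every subset of `X` occurs. -/
def PowerLe (X Y : Type) : Set P :=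
  fex fun E : Y → X → Set P => fall fun A : X → Set P => fex fun y => fall fun x =>
    fand (fimp (meets (A x)) (meets (E y x))) (fimp (meets (E y x)) (meets (A x)))

/-- The generalized continuum hypothesis in the extension: for all infinite `X` and all `Y`
either `Y` has at most as many elements as `X` or the power set of `X` has at most as many
elements as `Y`. (Every set of the extension has the same size as some set `X` of the ground
model.) -/
def ForcesGCH : Set P :=
  fall fun X : Type => fall fun Y : Type => fall fun _ : Infinite X =>
    for' (SizeLe P Y X) (PowerLe P X Y)

variable {P}

/-- The named subset `B` of `X` has at least as many elements as `I`: there is an injective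
function from `I` to `X` with all values in `B`. -/
def AtLeast (I : Type) {X : Type} (B : X → Set P) : Set P :=
  fex fun R : I → X → Set P => fand (IsFun R) (fand (IsInj R)
    (fall fun a => fall fun x => fimp (meets (R a x)) (meets (B x))))

variable (P)

/-- The polarized relation `(|K|, |S|) → (|K|, |K|; |I|, |I|)` in the extension: for every
partition of `K × S` into two classes (`c` names one of them) there are `A ⊆ K` with at least
`|K|` elements and `B ⊆ S` with at least `|I|` elements such that `A × B` is contained in one of
the classes. -/
def Relation (K S I : Type) : Set P :=
  fall fun c : K → S → Set P => fex fun A : K → Set P => fex fun B : S → Set P =>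
    fand (AtLeast K A) (fand (AtLeast I B)
      (for'
        (fall fun x => fall fun y => fimp (fand (meets (A x)) (meets (B y))) (meets (c x y)))
        (fall fun x => fall fun y =>
          fimp (fand (meets (A x)) (meets (B y))) (fnot (meets (c x y))))))

end

end Pool.Agent.Helper980.G
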