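import Pool.Agent.Helper980.Polar.Main

/-!
# A Prikry-type notion of forcing for polarized partition relations at successor cardinals

For an infinite cardinal `μ` with `2 ^ μ = μ⁺` the poset `Cond μ S C` (`|S| = μ⁺⁺`, `1 ≤ |C| ≤ μ`)
adds a function `f : μ⁺ × S → C` such that for every `B ⊆ S` of size `μ` all but at most `μ` many
rows `f(ξ, ·)` take all values in `C` on `B`.
-/

set_option autoImplicit false

namespace Pool.Agent.Helper980.Prikry
open Cardinal Ordinal Set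
open Pool.Agent.Helper980.Polar

universe u v w

section

/-- choose different elements of large sets -/
theorem exists_choice {mu : Cardinal.{u}} {T X : Type u} (hT : #T ≤ mu) (B : T → Set X)
    (hB : ∀ t, mu ≤ #(B t)) : ∃ x : T → X, Function.Injective x ∧ ∀ t, x t ∈ B t := by
  classical
  obtain ⟨e⟩ : Nonempty ((#T).ord.ToType ≃ T) := by
    rw [← Cardinal.eq]
    simp
  obtain ⟨x, hx⟩ := exists_rec (I := (#T).ord.ToType) (X := X)
    (fun i f x => x ∈ B (e i) ∧ ∀ j (hj : j < i), x ≠ f j hj) (by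
      intro i f _
      by_contra hc
      push Not at hc
      have h1 : B (e i) ⊆ range (fun j : Iio i => f j.1 j.2) := by
        intro x hx
        obtain ⟨j, hj, h2⟩ := hc x hx
        exact ⟨⟨j, hj⟩, h2.symm⟩
      have h2 := (hB (e i)).trans ((mk_le_mk_of_subset h1).trans mk_range_le)
      exact absurd (h2.trans_lt (mk_Iio_ord_lt i)) (not_lt.2 hT))
  refine ⟨fun t => x (e.symm t), ?_, fun t => by simpa using (hx (e.symm t)).1⟩
  intro t t' h
  rcases lt_trichotomy (e.symm t) (e.symm t') with h1 | h1 | h1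
  · exact absurd h.symm ((hx _).2 _ h1)
  · exact e.symm.injective h1
  · exact absurd h ((hx _).2 _ h1)

/-- a function taking all values on each of at most `μ` sets of size `μ` -/
theorem exists_split {mu : Cardinal.{u}} (h0 : ℵ₀ ≤ mu) {C X : Type u} [Nonempty C]
    (hC : #C ≤ mu) (pr : Set (Set X)) (hpr : #(pr) ≤ mu) (hB : ∀ B ∈ pr, mu ≤ #B) :
    ∃ g : X → C, ∀ B ∈ pr, ∀ c, ∃ x ∈ B, g x = c := by
  classical
  obtain ⟨x, hx, hx'⟩ := exists_choice (mu := mu) (T := pr × C) (X := X)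
    (by
      rw [mk_prod, Cardinal.lift_id, Cardinal.lift_id]
      exact mul_le_of_le h0 hpr hC) (fun t => t.1.1) (fun t => hB _ t.1.2)
  refine ⟨Function.extend x (fun t => t.2) (fun _ => Classical.arbitrary C), ?_⟩
  intro B hB' c
  exact ⟨x (⟨B, hB'⟩, c), hx' (⟨B, hB'⟩, c), hx.extend_apply _ _ _⟩

end

/-- A condition: a function `f` on `top × a` (extended by a constant), where `top < μ⁺` and
`a ⊆ S` has size at most `μ`, and a set `pr` of at most `μ` promises: all new rows take all values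
on every member of `pr`. -/
structure Cond (mu : Cardinal.{u}) (S C : Type u) [Nonempty C] : Type u where
  top : Lam mu
  a : Set S
  f : Lam mu → S → C
  pr : Set (Set S)
  ha : #a ≤ mu
  hpr : #(pr) ≤ mu
  hB : ∀ B ∈ pr, B ⊆ a ∧ mu ≤ #B
  nrm : ∀ ξ x, ¬ (ξ < top ∧ x ∈ a) → f ξ x = Classical.arbitrary C

variable {mu : Cardinal.{u}} {S C : Type u} [Nonempty C]

instance : Preorder (Cond mu S C) where
  le q p := p.top ≤ q.top ∧ p.a ⊆ q.a ∧ p.pr ⊆ q.pr ∧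
    (∀ ξ < p.top, ∀ x ∈ p.a, q.f ξ x = p.f ξ x) ∧
    ∀ B ∈ p.pr, ∀ ξ, p.top ≤ ξ → ξ < q.top → ∀ c, ∃ x ∈ B, q.f ξ x = c
  le_refl p := ⟨le_rfl, Subset.rfl, Subset.rfl, fun _ _ _ _ => rfl,
    fun _ _ ξ h h' => absurd h' (not_lt.2 h)⟩
  le_trans r q p h h' := by
    refine ⟨h'.1.trans h.1, h'.2.1.trans h.2.1, h'.2.2.1.trans h.2.2.1, ?_, ?_⟩
    · intro ξ hξ x hx
      rw [h.2.2.2.1 ξ (hξ.trans_le h'.1) x (h'.2.1 hx), h'.2.2.2.1 ξ hξ x hx]
    · intro B hB ξ h1 h2 c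
      rcases lt_or_ge ξ q.top with h3 | h3
      · obtain ⟨x, hx, hxc⟩ := h'.2.2.2.2 B hB ξ h1 h3 c
        exact ⟨x, hx, by rw [h.2.2.2.1 ξ h3 x (h'.2.1 ((p.hB B hB).1 hx)), hxc]⟩
      · exact h.2.2.2.2 B (h'.2.2.1 hB) ξ h3 h2 c

theorem le_def {q p : Cond mu S C} : q ≤ p ↔ p.top ≤ q.top ∧ p.a ⊆ q.a ∧ p.pr ⊆ q.pr ∧
    (∀ ξ < p.top, ∀ x ∈ p.a, q.f ξ x = p.f ξ x) ∧
    ∀ B ∈ p.pr, ∀ ξ, p.top ≤ ξ → ξ < q.top → ∀ c, ∃ x ∈ B, q.f ξ x = c := Iff.rfl

open Classical in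
/-- the condition given by `F` restricted to `top × a` -/
noncomputable def Cond.of (top : Lam mu) (a : Set S) (F : Lam mu → S → C) (pr : Set (Set S))
    (ha : #a ≤ mu) (hpr : #(pr) ≤ mu) (hB : ∀ B ∈ pr, B ⊆ a ∧ mu ≤ #B) : Cond mu S C where
  top := top
  a := a
  f := fun ξ x => if ξ < top ∧ x ∈ a then F ξ x else Classical.arbitrary C
  pr := pr
  ha := ha
  hpr := hpr
  hB := hB
  nrm := fun ξ x h => if_neg h

theorem of_f {top : Lam mu} {a : Set S} {F : Lam mu → S → C} {pr : Set (Set S)}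
    {ha : #a ≤ mu} {hpr : #(pr) ≤ mu} {hB : ∀ B ∈ pr, B ⊆ a ∧ mu ≤ #B} {ξ : Lam mu} {x : S}
    (h : ξ < top) (h' : x ∈ a) : (Cond.of top a F pr ha hpr hB).f ξ x = F ξ x :=
  if_pos ⟨h, h'⟩

/-- Chains of length at most `μ` have lower bounds, with prescribed additional columns, promises
and rows. -/
theorem lower (h0 : ℵ₀ ≤ mu) (hC : #C ≤ mu) {I : Type u} [LinearOrder I] [Nonempty I]
    (hI : #I ≤ mu) (s : I → Cond mu S C) (hs : ∀ i j, i ≤ j → s j ≤ s i)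
    (β : Lam mu) (A : Set S) (hA : #A ≤ mu) (Q : Set (Set S)) (hQ : #Q ≤ mu)
    (hQA : ∀ B ∈ Q, B ⊆ A ∧ mu ≤ #B) :
    ∃ q : Cond mu S C, (∀ i, q ≤ s i) ∧ β < q.top ∧ A ⊆ q.a ∧ Q ⊆ q.pr := by
  classical
  obtain ⟨b, hb⟩ := exists_bound h0 hI (fun i => (s i).top)
  obtain ⟨b', hb'⟩ := exists_bound h0 (ι := PUnit.{u+1})
      (by rw [mk_punit]; exact one_le_aleph0.trans h0) (fun _ => β)
  have hpr : #(⋃ i, (s i).pr : Set (Set S)) ≤ mu := by
    refine (mk_iUnion_le_sum_mk.trans (sum_le_mk_mul_iSup _)).trans ?_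
    exact mul_le_of_le h0 hI (ciSup_le' fun i => (s i).hpr)
  have ha : #(⋃ i, (s i).a : Set S) ≤ mu := by
    refine (mk_iUnion_le_sum_mk.trans (sum_le_mk_mul_iSup _)).trans ?_
    exact mul_le_of_le h0 hI (ciSup_le' fun i => (s i).ha)
  obtain ⟨g, hg⟩ := exists_split (C := C) h0 hC (⋃ i, (s i).pr) hpr (by
    intro B hB
    obtain ⟨i, hi⟩ := mem_iUnion.1 hB
    exact ((s i).hB B hi).2)
  let F : Lam mu → S → C := fun ξ x =>
    if h : ∃ i, ξ < (s i).top ∧ x ∈ (s i).a then (s h.choose).f ξ x else g x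
  have hF : ∀ i ξ x, ξ < (s i).top → x ∈ (s i).a → F ξ x = (s i).f ξ x := by
    intro i ξ x h1 h2
    have h : ∃ i, ξ < (s i).top ∧ x ∈ (s i).a := ⟨i, h1, h2⟩
    have h3 : F ξ x = (s h.choose).f ξ x := dif_pos h
    rw [h3]
    rcases le_total i h.choose with h4 | h4
    · exact (hs _ _ h4).2.2.2.1 ξ h1 x h2
    · exact ((hs _ _ h4).2.2.2.1 ξ h.choose_spec.1 x h.choose_spec.2).symm
  let q : Cond mu S C := Cond.of (max b b') ((⋃ i, (s i).a) ∪ A) F ((⋃ i, (s i).pr) ∪ Q)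
    ((mk_union_le _ _).trans (add_le_of_le h0 ha hA))
    ((mk_union_le _ _).trans (add_le_of_le h0 hpr hQ)) (by
      rintro B (hB | hB)
      · obtain ⟨i, hi⟩ := mem_iUnion.1 hB
        exact ⟨(((s i).hB B hi).1.trans (subset_iUnion (fun i => (s i).a) i)).trans
          subset_union_left, ((s i).hB B hi).2⟩
      · exact ⟨(hQA B hB).1.trans subset_union_right, (hQA B hB).2⟩)
  have hqa : ∀ i, (s i).a ⊆ q.a := fun i =>
    (subset_iUnion (fun i => (s i).a) i).trans subset_union_left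
  refine ⟨q, fun i => ?_, (hb' PUnit.unit).trans_le (le_max_right _ _), subset_union_right,
    subset_union_right⟩
  refine ⟨(hb i).le.trans (le_max_left _ _), hqa i,
    (subset_iUnion (fun i => (s i).pr) i).trans subset_union_left, ?_, ?_⟩
  · intro ξ hξ x hx
    rw [show q.f ξ x = F ξ x from of_f ((hξ.trans (hb i)).trans_le (le_max_left _ _))
      (hqa i hx), hF i ξ x hξ hx]
  · intro B hB ξ h1 h2 c
    by_cases h : ∃ j, ξ < (s j).top
    · obtain ⟨j, hj⟩ := h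
      have hij : s j ≤ s i := by
        rcases le_total i j with h3 | h3
        · exact hs _ _ h3
        · exact absurd (hj.trans_le (hs _ _ h3).1) (not_lt.2 h1)
      obtain ⟨x, hx, hxc⟩ := hij.2.2.2.2 B hB ξ h1 hj c
      have hxj : x ∈ (s j).a := hij.2.1 (((s i).hB B hB).1 hx)
      refine ⟨x, hx, ?_⟩
      rw [show q.f ξ x = F ξ x from of_f h2 (hqa j hxj), hF j ξ x hj hxj, hxc]
    · obtain ⟨x, hx, hxc⟩ := hg B (mem_iUnion.2 ⟨i, hB⟩) c
      refine ⟨x, hx, ?_⟩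
      have h3 : F ξ x = g x := dif_neg (by
        rintro ⟨j, hj, _⟩
        exact h ⟨j, hj⟩)
      rw [show q.f ξ x = F ξ x from of_f h2 (hqa i (((s i).hB B hB).1 hx)), h3, hxc]

/-- extend one condition -/
theorem extend (h0 : ℵ₀ ≤ mu) (hC : #C ≤ mu) (p : Cond mu S C)
    (β : Lam mu) (A : Set S) (hA : #A ≤ mu) (Q : Set (Set S)) (hQ : #Q ≤ mu)
    (hQA : ∀ B ∈ Q, B ⊆ A ∧ mu ≤ #B) :
    ∃ q ≤ p, β < q.top ∧ A ⊆ q.a ∧ Q ⊆ q.pr := by
  obtain ⟨q, h1, h2⟩ := lower h0 hC (I := PUnit.{u+1})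
    (by rw [mk_punit]; exact one_le_aleph0.trans h0) (fun _ => p) (fun _ _ _ => le_rfl) β A hA Q hQ
    hQA
  exact ⟨q, h1 PUnit.unit, h2⟩

/-- at most `μ` dense sets can be met -/
theorem meet (h0 : ℵ₀ ≤ mu) (hC : #C ≤ mu) {ι : Type u} (hι : #ι ≤ mu)
    (φ : ι → Set (Cond mu S C)) (hd : ∀ n, Down (φ n)) (p : Cond mu S C)
    (h : ∀ n, ∀ q ≤ p, ∃ r ≤ q, r ∈ φ n) : ∃ q ≤ p, ∀ n, q ∈ φ n := by
  classical
  rcases isEmpty_or_nonempty ι with hE | hE
  · exact ⟨p, le_rfl, fun n => (hE.false n).elim⟩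
  obtain ⟨e⟩ : Nonempty ((#ι).ord.ToType ≃ ι) := by
    rw [← Cardinal.eq]
    simp
  have : Nonempty (#ι).ord.ToType := ⟨e.symm (Classical.arbitrary ι)⟩
  have low : ∀ {I : Type u} [LinearOrder I] (s : I → Cond mu S C), #I ≤ mu →
      (∀ i j, i ≤ j → s j ≤ s i) → (∀ i, s i ≤ p) → ∃ q ≤ p, ∀ i, q ≤ s i := by
    intro I _ s hI hs hp
    rcases isEmpty_or_nonempty I with hI' | hI'
    · exact ⟨p, le_rfl, fun i => (hI'.false i).elim⟩
    · obtain ⟨q, h1, _⟩ := lower h0 hC hI s hs p.top ∅ (by simp) ∅ (by simp) (by simp)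
      exact ⟨q, (h1 (Classical.arbitrary I)).trans (hp _), h1⟩
  obtain ⟨s, hs⟩ := exists_rec (I := (#ι).ord.ToType) (X := Cond mu S C)
    (fun i f x => x ≤ p ∧ (∀ j (hj : j < i), x ≤ f j hj) ∧ x ∈ φ (e i)) (by
      intro i f hf
      obtain ⟨q, hq, h1⟩ := low (I := Iio i) (fun j => f j.1 j.2)
        ((mk_Iio_ord_lt i).le.trans hι) (by
          rintro ⟨j, hj⟩ ⟨k, hk⟩ hjk
          rcases eq_or_lt_of_le (show j ≤ k from hjk) with h2 | h2
          · subst h2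
            exact le_rfl
          · exact (hf k hk).2.1 j h2) (fun j => (hf j.1 j.2).1)
      obtain ⟨r, hr, hr'⟩ := h (e i) q hq
      exact ⟨r, hr.trans hq, fun j hj => hr.trans (h1 ⟨j, hj⟩), hr'⟩)
  obtain ⟨q, hq, h1⟩ := low s (by simpa using hι) (by
    intro i j hij
    rcases eq_or_lt_of_le hij with h2 | h2
    · subst h2
      exact le_rfl
    · exact (hs j).2.1 i h2) (fun i => (hs i).1)
  refine ⟨q, hq, fun n => ?_⟩
  have h2 := hd _ _ (hs (e.symm n)).2.2 q (h1 _)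
  rwa [e.apply_symm_apply] at h2

theorem nonempty_cond (h0 : ℵ₀ ≤ mu) : Nonempty (Cond mu S C) := by
  obtain ⟨b, _⟩ := exists_bound h0 (ι := PEmpty.{u+1}) (by simp) (fun x => x.elim)
  exact ⟨Cond.of b ∅ (fun _ _ => Classical.arbitrary C) ∅ (by simp) (by simp) (by simp)⟩

end Pool.Agent.Helper980.Prikry
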